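import Pool.Agent.Helper33.HK.ErgB

/-!
# Hecke relations and the orbit of a `T_p`-ergodic measure under `T_q`

Let `p, q ≥ 2` and let `r ≥ 2` be a divisor of `q` which is coprime to `p` (for coprime `p, q` one
may take `r = q`).  For a measure `μ` on the circle which is invariant and ergodic under
`T_p : x ↦ p x` we compare the images `T_{q ^ k} μ` with their translates by `1 / r`.
-/

set_option autoImplicit false

open MeasureTheory Set

namespace Pool.Agent.Results.MP_96e181_an.HeckeDichotomy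

/-- The image of the measure `μ` under `x ↦ n x`. -/
noncomputable def push (n : ℕ) (μ : Measure UnitAddCircle) : Measure UnitAddCircle :=
  μ.map fun x : UnitAddCircle => n • x

/-- The Fourier coefficient `∫ exp (2 π i n x) dμ(x)`. -/
noncomputable def coef (μ : Measure UnitAddCircle) (n : ℤ) : ℂ := ∫ x, (fourier n x : ℂ) ∂μ

/-- Finite order Hecke relation at `q` along `K`: on the integers `n` that are not divisible by `r`,
each of the functions `n ↦ coef μ (q ^ k * n)`, `k ∈ K`, is a linear combination of the first `N` of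
the functions `n ↦ coef μ (q ^ i * n)`; here `N` does not depend on `k`. -/
def FiniteHecke (q r : ℕ) (μ : Measure UnitAddCircle) (K : Set ℕ) : Prop :=
  ∃ N : ℕ, ∀ k ∈ K, ∃ c : ℕ → ℂ, ∀ n : ℤ, ¬ (r : ℤ) ∣ n →
    coef μ ((q : ℤ) ^ k * n) = ∑ i ∈ Finset.range N, c i * coef μ ((q : ℤ) ^ i * n)

/-- The positive parts of the differences of `T_{q ^ k} μ` and of its translate by `1 / r`, `k ∈ K`,
are absolutely continuous with respect to one finite measure `m`, uniformly in `k ∈ K`. -/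
def UniformlyAC (q r : ℕ) (μ : Measure UnitAddCircle) (K : Set ℕ) : Prop :=
  ∃ m : Measure UnitAddCircle, IsFiniteMeasure m ∧ ∀ ε : ENNReal, 0 < ε → ∃ δ : ENNReal, 0 < δ ∧
    ∀ k ∈ K, ∀ A : Set UnitAddCircle, MeasurableSet A → m A ≤ δ →
      push (q ^ k) μ A ≤ push (q ^ k) μ {x | x + (((1 : ℝ) / r : ℝ) : UnitAddCircle) ∈ A} + ε

/-- **Dichotomy for ergodic measures.** -/
theorem result (p q r : ℕ) (hp : 2 ≤ p) (hq : 2 ≤ q) (hr : 2 ≤ r) (hrq : r ∣ q)
    (hrp : Nat.Coprime r p) (μ : Measure UnitAddCircle) [IsProbabilityMeasure μ]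
    (hμ : Ergodic (fun x : UnitAddCircle => p • x) μ) :
    List.TFAE [
      ∃ k l : ℕ, 1 ≤ l ∧ push (q ^ (k + l)) μ = push (q ^ k) μ,
      FiniteHecke q r μ univ,
      ∃ K : Set ℕ, K.Infinite ∧ FiniteHecke q r μ K,
      UniformlyAC q r μ univ,
      ∃ K : Set ℕ, K.Infinite ∧ UniformlyAC q r μ K] := by
  have h1 : ∀ K, FiniteHecke q r μ K ↔ Pool.Agent.Helper33.HK.HeckeFin q r μ K := fun K => Iff.rfl
  have h2 : ∀ K, UniformlyAC q r μ K ↔ Pool.Agent.Helper33.HK.PrimAC q r μ K := by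
    intro K
    have key : ∀ (k : ℕ) (A : Set UnitAddCircle), MeasurableSet A →
        push (q ^ k) μ A = μ {x | (q ^ k) • x ∈ A} ∧
        push (q ^ k) μ {x | x + (((1 : ℝ) / r : ℝ) : UnitAddCircle) ∈ A} =
          μ {x | (q ^ k) • x + Pool.Agent.K3h68.IL.uu r ∈ A} := fun k A hA =>
      ⟨Measure.map_apply (Pool.Agent.Helper33.HK.meas_nsmul _) hA,
        Measure.map_apply (Pool.Agent.Helper33.HK.meas_nsmul _) ((measurable_add_const _) hA)⟩
    unfold UniformlyAC Pool.Agent.Helper33.HK.PrimAC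
    constructor
    · rintro ⟨m, hm, h⟩
      refine ⟨m, hm, fun ε hε => ?_⟩
      obtain ⟨δ, hδ, h'⟩ := h ε hε
      refine ⟨δ, hδ, fun k hk A hA hmA => ?_⟩
      have := h' k hk A hA hmA
      rwa [(key k A hA).1, (key k A hA).2] at this
    · rintro ⟨m, hm, h⟩
      refine ⟨m, hm, fun ε hε => ?_⟩
      obtain ⟨δ, hδ, h'⟩ := h ε hε
      refine ⟨δ, hδ, fun k hk A hA hmA => ?_⟩
      rw [(key k A hA).1, (key k A hA).2]
      exact h' k hk A hA hmA
  simp only [h1, h2]
  exact Pool.Agent.Helper33.HK.tfae_erg hp hq hr hrq hrp hμ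

end Pool.Agent.Results.MP_96e181_an.HeckeDichotomy
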