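import Pool.Agent.Helper33.HK.Equiv

/-!
# Rudolph's theorem without invariance under `T_q`

Let `p, q ≥ 2` be coprime and let `r ≥ 2` divide `q`.  A probability measure `μ` on the circle which
is invariant under `T_p : x ↦ p x`, almost all of whose ergodic components have positive entropy, and
whose images `T_{q ^ k} μ` satisfy a finite order linear relation at the frequencies not divisible by
`r` (instead of being all equal to `μ`), for the exponents `k` of a set of positive upper Banach
density, is Lebesgue measure.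
-/

set_option autoImplicit false

open MeasureTheory Set

namespace Pool.Agent.Results.MP_96e181_an.HeckeEntropy

/-- The image of the measure `μ` under `x ↦ n x`. -/
noncomputable def push (n : ℕ) (μ : Measure UnitAddCircle) : Measure UnitAddCircle :=
  μ.map fun x : UnitAddCircle => n • x

/-- The Fourier coefficient `∫ exp (2 π i n x) dμ(x)`. -/
noncomputable def coef (μ : Measure UnitAddCircle) (n : ℤ) : ℂ := ∫ x, (fourier n x : ℂ) ∂μ

/-- `K` has positive upper Banach density: for some `d > 0` there are arbitrarily long intervals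
`[M, M + N)` which contain at least `d * N` elements of `K`. -/
def PosDensity (K : Set ℕ) : Prop :=
  ∃ d : ℝ, 0 < d ∧ ∀ N₀ : ℕ, ∃ N M : ℕ, N₀ ≤ N ∧ d * N ≤ ((K ∩ Set.Ico M (M + N)).ncard : ℝ)

/-- `T_p` is injective on no invariant set of positive measure: if `E` is a Borel set with
`T_p ⁻¹ E = E` and `T_p` is injective on a Borel set `G ⊆ E` with `μ (E \ G) = 0`, then `μ E = 0`.
(This says that almost every ergodic component of `μ` has positive entropy.) -/
def NowhereInjective (p : ℕ) (μ : Measure UnitAddCircle) : Prop :=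
  ∀ E G : Set UnitAddCircle, MeasurableSet E → MeasurableSet G →
    (fun x : UnitAddCircle => p • x) ⁻¹' E = E → G ⊆ E → μ (E \ G) = 0 →
    InjOn (fun x : UnitAddCircle => p • x) G → μ E = 0

/-- Finite order Hecke relation at `q` along `K`: on the integers `n` that are not divisible by `r`,
each of the functions `n ↦ coef μ (q ^ k * n)`, `k ∈ K`, is a linear combination of the first `N` of
the functions `n ↦ coef μ (q ^ i * n)`; here `N` does not depend on `k`. -/
def FiniteHecke (q r : ℕ) (μ : Measure UnitAddCircle) (K : Set ℕ) : Prop :=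
  ∃ N : ℕ, ∀ k ∈ K, ∃ c : ℕ → ℂ, ∀ n : ℤ, ¬ (r : ℤ) ∣ n →
    coef μ ((q : ℤ) ^ k * n) = ∑ i ∈ Finset.range N, c i * coef μ ((q : ℤ) ^ i * n)

/-- The positive parts of the differences of `T_{q ^ k} μ` and of its translate by `1 / r`, `k ∈ K`,
are absolutely continuous with respect to one finite measure `m`, uniformly in `k ∈ K`. -/
def UniformlyAC (q r : ℕ) (μ : Measure UnitAddCircle) (K : Set ℕ) : Prop :=
  ∃ m : Measure UnitAddCircle, IsFiniteMeasure m ∧ ∀ ε : ENNReal, 0 < ε → ∃ δ : ENNReal, 0 < δ ∧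
    ∀ k ∈ K, ∀ A : Set UnitAddCircle, MeasurableSet A → m A ≤ δ →
      push (q ^ k) μ A ≤ push (q ^ k) μ {x | x + (((1 : ℝ) / r : ℝ) : UnitAddCircle) ∈ A} + ε

lemma primAC {q r : ℕ} {μ : Measure UnitAddCircle} {K : Set ℕ} (h : UniformlyAC q r μ K) :
    Pool.Agent.Helper33.HK.PrimAC q r μ K := by
  obtain ⟨m, hm, h⟩ := h
  refine ⟨m, hm, fun ε hε => ?_⟩
  obtain ⟨δ, hδ, h'⟩ := h ε hε
  refine ⟨δ, hδ, fun k hk A hA hmA => ?_⟩
  have h1 := h' k hk A hA hmA
  have e1 : push (q ^ k) μ A = μ {x | (q ^ k) • x ∈ A} :=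
    Measure.map_apply (Pool.Agent.Helper33.HK.meas_nsmul _) hA
  have e2 : push (q ^ k) μ {x | x + (((1 : ℝ) / r : ℝ) : UnitAddCircle) ∈ A} =
      μ {x | (q ^ k) • x + Pool.Agent.K3h68.IL.uu r ∈ A} :=
    Measure.map_apply (Pool.Agent.Helper33.HK.meas_nsmul _) ((measurable_add_const _) hA)
  rwa [e1, e2] at h1

/-- **Rudolph's theorem for Hecke relations.** -/
theorem result (p q r : ℕ) (hp : 2 ≤ p) (hq : 2 ≤ q) (hpq : Nat.Coprime p q) (hr : 2 ≤ r)
    (hrq : r ∣ q) (μ : Measure UnitAddCircle) [IsProbabilityMeasure μ]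
    (hμ : MeasurePreserving (fun x : UnitAddCircle => p • x) μ μ) (hn : NowhereInjective p μ)
    (K : Set ℕ) (hK : PosDensity K) (h : FiniteHecke q r μ K ∨ UniformlyAC q r μ K) :
    μ = volume := by
  refine Pool.Agent.Helper33.HK.rudolph_nonerg hp hq hpq hr hrq hμ hn hK ?_
  rcases h with h | h
  · exact Pool.Agent.Helper33.HK.primAC_of_heckeFin (by omega) h
  · exact primAC h

end Pool.Agent.Results.MP_96e181_an.HeckeEntropy
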