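import Pool.Agent.Helper33.HK.Equiv

/-!
# Furstenberg's conjecture and Hecke relations

Let `p, q ≥ 2` and let `r ≥ 2` be a divisor of `q` which is coprime to `p` (for coprime `p, q` one
may take `r = q`).  Furstenberg's conjecture for the pair `(p, q)` is equivalent to formally much
stronger rigidity statements about measures which are invariant under `T_p : x ↦ p x` only.
-/

set_option autoImplicit false

open MeasureTheory Set

namespace Pool.Agent.Results.MP_96e181_an.HeckeEquivalence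

/-- The image of the measure `μ` under `x ↦ n x`. -/
noncomputable def push (n : ℕ) (μ : Measure UnitAddCircle) : Measure UnitAddCircle :=
  μ.map fun x : UnitAddCircle => n • x

/-- The Fourier coefficient `∫ exp (2 π i n x) dμ(x)`. -/
noncomputable def coef (μ : Measure UnitAddCircle) (n : ℤ) : ℂ := ∫ x, (fourier n x : ℂ) ∂μ

/-- `K` has positive upper Banach density: for some `d > 0` there are arbitrarily long intervals
`[M, M + N)` which contain at least `d * N` elements of `K`. -/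
def PosDensity (K : Set ℕ) : Prop :=
  ∃ d : ℝ, 0 < d ∧ ∀ N₀ : ℕ, ∃ N M : ℕ, N₀ ≤ N ∧ d * N ≤ ((K ∩ Set.Ico M (M + N)).ncard : ℝ)

/-- Hecke relation at `q`: for every `k` there is `g` such that
`coef μ (q ^ k * n) = g * coef μ n` for all integers `n` not divisible by `r`. -/
def Hecke (q r : ℕ) (μ : Measure UnitAddCircle) : Prop :=
  ∀ k : ℕ, ∃ g : ℂ, ∀ n : ℤ, ¬ (r : ℤ) ∣ n → coef μ ((q : ℤ) ^ k * n) = g * coef μ n

/-- Finite order Hecke relation at `q` along `K`: on the integers `n` that are not divisible by `r`,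
each of the functions `n ↦ coef μ (q ^ k * n)`, `k ∈ K`, is a linear combination of the first `N` of
the functions `n ↦ coef μ (q ^ i * n)`; here `N` does not depend on `k`. -/
def FiniteHecke (q r : ℕ) (μ : Measure UnitAddCircle) (K : Set ℕ) : Prop :=
  ∃ N : ℕ, ∀ k ∈ K, ∃ c : ℕ → ℂ, ∀ n : ℤ, ¬ (r : ℤ) ∣ n →
    coef μ ((q : ℤ) ^ k * n) = ∑ i ∈ Finset.range N, c i * coef μ ((q : ℤ) ^ i * n)

/-- The positive parts of the differences of `T_{q ^ k} μ` and of its translate by `1 / r`, `k ∈ K`,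
are absolutely continuous with respect to one finite measure `m`, uniformly in `k ∈ K`. -/
def UniformlyAC (q r : ℕ) (μ : Measure UnitAddCircle) (K : Set ℕ) : Prop :=
  ∃ m : Measure UnitAddCircle, IsFiniteMeasure m ∧ ∀ ε : ENNReal, 0 < ε → ∃ δ : ENNReal, 0 < δ ∧
    ∀ k ∈ K, ∀ A : Set UnitAddCircle, MeasurableSet A → m A ≤ δ →
      push (q ^ k) μ A ≤ push (q ^ k) μ {x | x + (((1 : ℝ) / r : ℝ) : UnitAddCircle) ∈ A} + ε

lemma primAC {q r : ℕ} {μ : Measure UnitAddCircle} {K : Set ℕ} :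
    UniformlyAC q r μ K ↔ Pool.Agent.Helper33.HK.PrimAC q r μ K := by
  have key : ∀ (k : ℕ) (A : Set UnitAddCircle), MeasurableSet A →
      push (q ^ k) μ A = μ {x | (q ^ k) • x ∈ A} ∧
      push (q ^ k) μ {x | x + (((1 : ℝ) / r : ℝ) : UnitAddCircle) ∈ A} =
        μ {x | (q ^ k) • x + Pool.Agent.K3h68.IL.uu r ∈ A} := fun k A hA =>
    ⟨Measure.map_apply (Pool.Agent.Helper33.HK.meas_nsmul _) hA,
      Measure.map_apply (Pool.Agent.Helper33.HK.meas_nsmul _) ((measurable_add_const _) hA)⟩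
  constructor
  · rintro ⟨m, hm, h⟩
    refine ⟨m, hm, fun ε hε => ?_⟩
    obtain ⟨δ, hδ, h'⟩ := h ε hε
    refine ⟨δ, hδ, fun k hk A hA hmA => ?_⟩
    have := h' k hk A hA hmA
    rwa [(key k A hA).1, (key k A hA).2] at this
  · rintro ⟨m, hm, h⟩
    refine ⟨m, hm, fun ε hε => ?_⟩
    obtain ⟨δ, hδ, h'⟩ := h ε hε
    refine ⟨δ, hδ, fun k hk A hA hmA => ?_⟩
    rw [(key k A hA).1, (key k A hA).2]
    exact h' k hk A hA hmA

/-- **Furstenberg's conjecture for `(p, q)` in terms of Hecke relations.** -/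
theorem result (p q r : ℕ) (hp : 2 ≤ p) (hq : 2 ≤ q) (hr : 2 ≤ r) (hrq : r ∣ q)
    (hrp : Nat.Coprime r p) :
    List.TFAE [
      ∀ μ : Measure UnitAddCircle, IsProbabilityMeasure μ →
        MeasurePreserving (fun x : UnitAddCircle => p • x) μ μ →
        MeasurePreserving (fun x : UnitAddCircle => q • x) μ μ → (∀ x, μ {x} = 0) → μ = volume,
      ∀ μ : Measure UnitAddCircle, IsProbabilityMeasure μ →
        MeasurePreserving (fun x : UnitAddCircle => p • x) μ μ →
        Hecke q r μ → (∀ x, μ {x} = 0) → μ = volume,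
      ∀ μ : Measure UnitAddCircle, IsProbabilityMeasure μ →
        MeasurePreserving (fun x : UnitAddCircle => p • x) μ μ →
        (∃ K, PosDensity K ∧ FiniteHecke q r μ K) → (∀ x, μ {x} = 0) → μ = volume,
      ∀ μ : Measure UnitAddCircle, IsProbabilityMeasure μ →
        MeasurePreserving (fun x : UnitAddCircle => p • x) μ μ →
        (∃ K, PosDensity K ∧ UniformlyAC q r μ K) → (∀ x, μ {x} = 0) → μ = volume] := by
  tfae_have 1 → 4 := by
    rintro h μ hμp hμ ⟨K, hK, hac⟩ hna
    exact Pool.Agent.Helper33.HK.eq_vol_of_conj hp hq hr hrq hrp h hμ hna hK (primAC.1 hac)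
  tfae_have 4 → 3 := by
    rintro h μ hμp hμ ⟨K, hK, hac⟩ hna
    exact h μ hμp hμ ⟨K, hK, primAC.2 (Pool.Agent.Helper33.HK.primAC_of_heckeFin (by omega) hac)⟩ hna
  tfae_have 3 → 2 := by
    intro h μ hμp hμ hH hna
    refine h μ hμp hμ ⟨univ, Pool.Agent.Helper33.HK.posDensity_univ, 1, fun k _ => ?_⟩ hna
    obtain ⟨g, hg⟩ := hH k
    refine ⟨fun _ => g, fun n hn => ?_⟩
    rw [Finset.sum_range_one, pow_zero, one_mul]
    exact hg n hn
  tfae_have 2 → 1 := by
    intro h μ hμp hμ hμq hna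
    refine h μ hμp hμ (fun k => ⟨1, fun n _ => ?_⟩) hna
    rw [one_mul, mul_comm]
    exact Pool.Agent.K3h68.IL.cf_pow hμq n k
  tfae_finish

end Pool.Agent.Results.MP_96e181_an.HeckeEquivalence
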