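import Pool.Agent.Helper33.HK.MultB

/-!
# `T_p`-invariant measures with multiplicative Fourier coefficients

An atomless probability measure on the circle which is invariant under the single map
`T_p : x ↦ p x` and whose Fourier coefficients satisfy Hecke relations at the elements of a set `Q`
of integers, such that `p` and `Q` generate a multiplicative semigroup of positive upper density, is
Lebesgue measure.  No ergodicity and no entropy is assumed.
-/

set_option autoImplicit false

open MeasureTheory Set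

namespace Pool.Agent.Results.MP_96e181_an.HeckeMultiplicative

/-- The Fourier coefficient `∫ exp (2 π i n x) dμ(x)`. -/
noncomputable def coef (μ : Measure UnitAddCircle) (n : ℤ) : ℂ := ∫ x, (fourier n x : ℂ) ∂μ

/-- The set `S` of natural numbers has positive upper density: for some `d > 0` there are arbitrarily
large `N` such that `S` has at least `d * N` elements below `N`. -/
def PosUpperDensity (S : Set ℕ) : Prop :=
  ∃ d : ℝ, 0 < d ∧ ∀ N₀ : ℕ, ∃ N : ℕ, N₀ ≤ N ∧ d * N ≤ ((S ∩ Set.Iio N).ncard : ℝ)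

/-- Hecke relation at `q`: for every `k` there is `g` such that
`coef μ (q ^ k * n) = g * coef μ n` for all natural numbers `n` not divisible by `q`. -/
def Hecke (q : ℕ) (μ : Measure UnitAddCircle) : Prop :=
  ∀ k : ℕ, ∃ g : ℂ, ∀ n : ℕ, ¬ q ∣ n → coef μ ((q : ℤ) ^ k * n) = g * coef μ n

/-- **Rigidity.** -/
theorem result (p : ℕ) (hp : 2 ≤ p) (Q : Set ℕ) (hQ2 : ∀ q ∈ Q, 2 ≤ q)
    (hQp : ∀ q ∈ Q, Nat.Coprime q p) (hQQ : Q.Pairwise Nat.Coprime)
    (hd : PosUpperDensity ((Submonoid.closure (insert p Q) : Submonoid ℕ) : Set ℕ))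
    (μ : Measure UnitAddCircle) [IsProbabilityMeasure μ]
    (hμ : MeasurePreserving (fun x : UnitAddCircle => p • x) μ μ) (hna : ∀ x, μ {x} = 0)
    (hH : ∀ q ∈ Q, Hecke q μ) : μ = volume :=
  Pool.Agent.Helper33.HK.rigid_of_density hp hQ2 hQp hQQ hd hμ hna hH

/-- The case of multiplicative coefficients. -/
theorem multiplicative (p : ℕ) (hp : 2 ≤ p) (μ : Measure UnitAddCircle) [IsProbabilityMeasure μ]
    (hμ : MeasurePreserving (fun x : UnitAddCircle => p • x) μ μ) (hna : ∀ x, μ {x} = 0)
    (c : ℂ) (f : ℕ → ℂ) (hf : ∀ m n : ℕ, Nat.Coprime m n → f (m * n) = f m * f n)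
    (hc : ∀ n : ℕ, 0 < n → coef μ n = c * f n) : μ = volume := by
  refine result p hp {q : ℕ | q.Prime ∧ ¬ q ∣ p} (fun q hq => hq.1.two_le)
    (fun q hq => (Nat.Prime.coprime_iff_not_dvd hq.1).2 hq.2)
    (fun q hq q' hq' hne => (Nat.coprime_primes hq.1 hq'.1).2 hne)
    (Pool.Agent.Helper33.HK.posUpper_primes hp) μ hμ hna ?_
  intro q hq k
  refine ⟨f (q ^ k), fun n hn => ?_⟩
  have hn0 : 0 < n := by
    rcases Nat.eq_zero_or_pos n with h | h
    · exact absurd (h ▸ dvd_zero q) hn
    · exact h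
  have h1 := hc (q ^ k * n) (Nat.mul_pos (pow_pos hq.1.pos k) hn0)
  push_cast at h1
  rw [h1, hc n hn0, hf _ _ (((Nat.Prime.coprime_iff_not_dvd hq.1).2 hn).pow_left k)]
  ring

end Pool.Agent.Results.MP_96e181_an.HeckeMultiplicative
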